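import Pool.Agent.H22.CM.Stm3

/-!
# CREW CM: parts DC1, DC2, DC3 (double cosets)
-/

set_option autoImplicit false

namespace H81.CM

open H22.CM

variable {G : Type} [Group G] [Finite G] (H : Subgroup G)

/-- the double coset of a left coset -/
noncomputable def dl (j : G ⧸ H) : DoubleCoset.Quotient (H : Set G) (H : Set G) :=
  DoubleCoset.mk H H (Quotient.out j)

omit [Finite G] in
theorem dl_mk (x : G) : dl H (x : G ⧸ H) = DoubleCoset.mk H H x := by
  unfold dl
  rw [DoubleCoset.eq]
  have h : ((Quotient.out (x : G ⧸ H) : G) : G ⧸ H) = (x : G ⧸ H) := QuotientGroup.out_eq' _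
  rw [QuotientGroup.eq] at h
  exact ⟨1, H.one_mem, _, h, by group⟩

omit [Finite G] in
theorem dl_smul (h : H) (j : G ⧸ H) : dl H ((h : G) • j) = dl H j := by
  induction j using QuotientGroup.induction_on with
  | H x =>
    rw [MulAction.Quotient.smul_mk, dl_mk, dl_mk, DoubleCoset.eq]
    exact ⟨(h : G)⁻¹, H.inv_mem h.2, 1, H.one_mem, by simp⟩

omit [Finite G] in
theorem dl_trans (j j' : G ⧸ H) (h : dl H j = dl H j') : ∃ a : H, (a : G) • j = j' := by
  induction j using QuotientGroup.induction_on with
  | H x =>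
  induction j' using QuotientGroup.induction_on with
  | H y =>
    rw [dl_mk, dl_mk, DoubleCoset.eq] at h
    obtain ⟨a, ha, b, hb, rfl⟩ := h
    refine ⟨⟨a, ha⟩, ?_⟩
    rw [MulAction.Quotient.smul_mk, QuotientGroup.eq]
    have : (a • x)⁻¹ * (a * x * b) = b := by simp only [smul_eq_mul]; group
    rw [this]; exact hb

omit [Finite G] in
/-- a double coset is the product of the set of its left cosets and `H` -/
noncomputable def fibEquiv (d : DoubleCoset.Quotient (H : Set G) (H : Set G)) :
    {x : G // DoubleCoset.mk H H x = d} ≃ {j : G ⧸ H // dl H j = d} × H where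
  toFun x := (⟨(x.1 : G ⧸ H), by rw [dl_mk]; exact x.2⟩,
    ⟨(Quotient.out (x.1 : G ⧸ H))⁻¹ * x.1, by
      rw [← QuotientGroup.eq]; exact QuotientGroup.out_eq' _⟩)
  invFun p := ⟨Quotient.out p.1.1 * (p.2 : G), by
    have h := p.1.2
    unfold dl at h
    refine Eq.trans ?_ h
    rw [DoubleCoset.eq]
    exact ⟨1, H.one_mem, (p.2 : G)⁻¹, H.inv_mem p.2.2, by group⟩⟩
  left_inv x := by
    apply Subtype.ext
    show Quotient.out (x.1 : G ⧸ H) * ((Quotient.out (x.1 : G ⧸ H))⁻¹ * x.1) = x.1
    group
  right_inv p := by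
    have h0 : ((Quotient.out p.1.1 * (p.2 : G) : G) : G ⧸ H) = p.1.1 := by
      conv_rhs => rw [← QuotientGroup.out_eq' p.1.1]
      rw [QuotientGroup.eq]
      have : (Quotient.out p.1.1 * (p.2 : G))⁻¹ * Quotient.out p.1.1 = (p.2 : G)⁻¹ := by group
      rw [this]; exact H.inv_mem p.2.2
    apply Prod.ext
    · apply Subtype.ext
      exact h0
    · apply Subtype.ext
      show (Quotient.out ((Quotient.out p.1.1 * (p.2 : G) : G) : G ⧸ H))⁻¹ *
        (Quotient.out p.1.1 * (p.2 : G)) = p.2
      rw [h0]; group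

omit [Finite G] in
theorem card_fib (d : DoubleCoset.Quotient (H : Set G) (H : Set G)) :
    Nat.card {x : G // DoubleCoset.mk H H x = d} = Nat.card {j : G ⧸ H // dl H j = d} * Nat.card H := by
  rw [Nat.card_congr (fibEquiv H d), Nat.card_prod]

theorem card_fib_eq (d d' : DoubleCoset.Quotient (H : Set G) (H : Set G))
    (h : Nat.card {x : G // DoubleCoset.mk H H x = d} = Nat.card {x : G // DoubleCoset.mk H H x = d'}) :
    Nat.card {j : G ⧸ H // dl H j = d} = Nat.card {j : G ⧸ H // dl H j = d'} := by
  rw [card_fib, card_fib] at h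
  exact Nat.eq_of_mul_eq_mul_right Nat.card_pos h

theorem t_DC2 : S_DC2 := by
  intro G _ _ H φ hφ
  have e : ∀ d, Nonempty ({j : G ⧸ H // dl H j = d} ≃ {j : G ⧸ H // dl H j = φ d}) := by
    intro d
    exact Finite.card_eq.mp (card_fib_eq H d (φ d) (hφ d).symm)
  refine ⟨(Equiv.sigmaFiberEquiv (dl H)).symm.trans
    ((Equiv.sigmaCongr φ (fun d => (e d).some)).trans (Equiv.sigmaFiberEquiv (dl H))), ?_⟩
  intro x y hxy
  have h1 : dl H (y : G ⧸ H) = φ (dl H (x : G ⧸ H)) := by
    rw [← hxy]
    exact ((e (dl H (x : G ⧸ H))).some ⟨(x : G ⧸ H), rfl⟩).2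
  rw [dl_mk, dl_mk] at h1
  exact h1

/-- inversion of double cosets -/
noncomputable def dinv : Equiv.Perm (DoubleCoset.Quotient (H : Set G) (H : Set G)) :=
  Function.Involutive.toPerm (fun d => DoubleCoset.mk H H (Quotient.out d)⁻¹) (by
    intro d
    have h : ∀ x : G, DoubleCoset.mk H H (Quotient.out (DoubleCoset.mk H H x))⁻¹ =
        DoubleCoset.mk H H x⁻¹ := by
      intro x
      obtain ⟨h, k, hh, hk, he⟩ := DoubleCoset.mk_out_eq_mul H H x
      have he' : (Quotient.out (DoubleCoset.mk H H x) : G) = h * x * k := he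
      rw [he', DoubleCoset.eq]
      exact ⟨k, hk, h, hh, by group⟩
    show DoubleCoset.mk H H (Quotient.out (DoubleCoset.mk H H (Quotient.out d)⁻¹))⁻¹ = d
    rw [h, inv_inv]
    exact DoubleCoset.out_eq' H H d)

omit [Finite G] in
theorem dinv_mk (x : G) : dinv H (DoubleCoset.mk H H x) = DoubleCoset.mk H H x⁻¹ := by
  obtain ⟨h, k, hh, hk, he⟩ := DoubleCoset.mk_out_eq_mul H H x
  have he' : (Quotient.out (DoubleCoset.mk H H x) : G) = h * x * k := he
  show DoubleCoset.mk H H (Quotient.out (DoubleCoset.mk H H x))⁻¹ = DoubleCoset.mk H H x⁻¹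
  rw [he', DoubleCoset.eq]
  exact ⟨k, hk, h, hh, by group⟩

theorem t_DC1' (hDC2 : S_DC2) : S_DC1 := by
  intro G _ _ H
  obtain ⟨τ, hτ⟩ := hDC2 G H (dinv H) (by
    intro d
    apply Nat.card_congr
    refine ⟨fun x => ⟨x.1⁻¹, ?_⟩, fun x => ⟨x.1⁻¹, ?_⟩, fun x => by simp, fun x => by simp⟩
    · have h := x.2
      rw [← dinv_mk, h]
      exact Equiv.apply_symm_apply _ _
    · rw [← dinv_mk, x.2])
  have key : ∀ j : G ⧸ H, ∃ z : G, (z : G ⧸ H) = j ∧ ((z⁻¹ : G) : G ⧸ H) = τ j := by
    intro j
    induction j using QuotientGroup.induction_on with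
    | H x =>
      have h := hτ x (Quotient.out (τ (x : G ⧸ H))) (QuotientGroup.out_eq' _).symm
      rw [dinv_mk] at h
      rw [DoubleCoset.eq] at h
      obtain ⟨a, ha, b, hb, he⟩ := h
      -- x⁻¹ = a * y * b
      refine ⟨x * a, ?_, ?_⟩
      · rw [QuotientGroup.eq]
        have : (x * a)⁻¹ * x = a⁻¹ := by group
        rw [this]; exact H.inv_mem ha
      · conv_rhs => rw [← QuotientGroup.out_eq' (τ (x : G ⧸ H))]
        rw [QuotientGroup.eq]
        have : ((x * a)⁻¹)⁻¹ * Quotient.out (τ (x : G ⧸ H)) = b⁻¹ := by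
          have h2 : x = (a * Quotient.out (τ (x : G ⧸ H)) * b)⁻¹ := by rw [← he, inv_inv]
          have h3 : x * a * Quotient.out (τ (x : G ⧸ H)) =
            x * (a * Quotient.out (τ (x : G ⧸ H)) * b) * b⁻¹ := by group
          rw [inv_inv, h3, ← he]; group
        rw [this]; exact H.inv_mem hb
  choose z hz1 hz2 using key
  refine ⟨z, hz1, ?_⟩
  intro j j' h
  apply τ.injective
  rw [← hz2 j, ← hz2 j', QuotientGroup.eq]
  simpa using h

theorem t_DC1 : S_DC1 := t_DC1' t_DC2

/-- Hall's theorem for bipartite graphs in which no edge has a larger degree on the right -/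
theorem hall_deg {α β : Type*} [Fintype α] [Fintype β] [DecidableEq β] (r : α → β → Prop)
    [∀ a, DecidablePred (r a)] [∀ b, DecidablePred (fun a => r a b)] (hpos : ∀ a, ∃ b, r a b)
    (hdeg : ∀ a b, r a b → (Finset.univ.filter (fun a' => r a' b)).card ≤ (Finset.univ.filter (r a)).card) :
    ∃ f : α → β, Function.Injective f ∧ ∀ a, r a (f a) := by
  classical
  have h := (Finset.all_card_le_biUnion_card_iff_exists_injective
    (fun a => Finset.univ.filter (r a))).mp ?_
  · obtain ⟨f, hf, hr⟩ := h
    exact ⟨f, hf, fun a => by simpa using hr a⟩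
  · intro s
    set U := s.biUnion (fun a => Finset.univ.filter (r a)) with hU
    have h1 : (s.card : ℚ) = ∑ a ∈ s, ∑ b ∈ U, if r a b then (1 : ℚ) / (Finset.univ.filter (r a)).card else 0 := by
      rw [Finset.cast_card]
      apply Finset.sum_congr rfl
      intro a ha
      rw [← Finset.sum_filter]
      have h2 : U.filter (fun b => r a b) = Finset.univ.filter (r a) := by
        ext b
        simp only [Finset.mem_filter, Finset.mem_univ, true_and, hU, Finset.mem_biUnion]
        constructor
        · exact fun h => h.2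
        · exact fun h => ⟨⟨a, ha, h⟩, h⟩
      rw [h2, Finset.sum_const, nsmul_eq_mul]
      have h3 : ((Finset.univ.filter (r a)).card : ℚ) ≠ 0 := by
        obtain ⟨b, hb⟩ := hpos a
        have : 0 < (Finset.univ.filter (r a)).card := Finset.card_pos.mpr ⟨b, by simpa using hb⟩
        exact_mod_cast this.ne'
      field_simp
    have h4 : (s.card : ℚ) ≤ U.card := by
      rw [h1, Finset.sum_comm, Finset.cast_card]
      apply Finset.sum_le_sum
      intro b hb
      calc ∑ a ∈ s, (if r a b then (1 : ℚ) / (Finset.univ.filter (r a)).card else 0)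
          ≤ ∑ a ∈ s, (if r a b then (1 : ℚ) / (Finset.univ.filter (fun a' => r a' b)).card else 0) := by
            apply Finset.sum_le_sum
            intro a ha
            by_cases hab : r a b
            · simp only [hab, if_true]
              apply one_div_le_one_div_of_le
              · have : 0 < (Finset.univ.filter (fun a' => r a' b)).card :=
                  Finset.card_pos.mpr ⟨a, by simpa using hab⟩
                exact_mod_cast this
              · exact_mod_cast hdeg a b hab
            · simp [hab]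
        _ = (s.filter (fun a => r a b)).card * ((1 : ℚ) / (Finset.univ.filter (fun a' => r a' b)).card) := by
            rw [← Finset.sum_filter, Finset.sum_const, nsmul_eq_mul]
        _ ≤ 1 := by
            rw [mul_one_div]
            apply div_le_one_of_le₀
            · exact_mod_cast Finset.card_le_card (fun a ha => by
                simp only [Finset.mem_filter] at ha
                simpa using ha.2)
            · positivity
    exact_mod_cast h4

theorem t_DC3 : S_DC3 := by
  classical
  intro G _ _ H φ ψ hψ hne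
  haveI : Fintype (G ⧸ H) := Fintype.ofFinite _
  -- relation on representatives
  let r : G ⧸ H → G ⧸ H → Prop := fun i k =>
    dl H k = ψ (dl H i) ∧ DoubleCoset.mk H H ((Quotient.out i)⁻¹ * Quotient.out k) = φ (dl H i)
  have hr : ∀ x y : G, r (x : G ⧸ H) (y : G ⧸ H) ↔
      DoubleCoset.mk H H y = ψ (DoubleCoset.mk H H x) ∧
      DoubleCoset.mk H H (x⁻¹ * y) = φ (DoubleCoset.mk H H x) := by
    intro x y
    show (dl H (y : G ⧸ H) = ψ (dl H (x : G ⧸ H)) ∧ _ = φ (dl H (x : G ⧸ H))) ↔ _
    rw [dl_mk, dl_mk]
    have h1 : ((Quotient.out (x : G ⧸ H) : G) : G ⧸ H) = (x : G ⧸ H) := QuotientGroup.out_eq' _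
    have h2 : ((Quotient.out (y : G ⧸ H) : G) : G ⧸ H) = (y : G ⧸ H) := QuotientGroup.out_eq' _
    rw [QuotientGroup.eq] at h1 h2
    have h3 : DoubleCoset.mk H H ((Quotient.out (x : G ⧸ H))⁻¹ * Quotient.out (y : G ⧸ H)) =
        DoubleCoset.mk H H (x⁻¹ * y) := by
      rw [DoubleCoset.eq]
      exact ⟨_, H.inv_mem h1, _, h2, by group⟩
    rw [h3]
  have hsm : ∀ (h : H) (i k : G ⧸ H), r ((h : G) • i) ((h : G) • k) ↔ r i k := by
    intro h i k
    induction i using QuotientGroup.induction_on with
    | H x =>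
    induction k using QuotientGroup.induction_on with
    | H y =>
      rw [MulAction.Quotient.smul_mk, MulAction.Quotient.smul_mk, hr, hr]
      have h1 : DoubleCoset.mk H H ((h : G) • x) = DoubleCoset.mk H H x := by
        rw [DoubleCoset.eq]; exact ⟨(h : G)⁻¹, H.inv_mem h.2, 1, H.one_mem, by simp⟩
      have h2 : DoubleCoset.mk H H ((h : G) • y) = DoubleCoset.mk H H y := by
        rw [DoubleCoset.eq]; exact ⟨(h : G)⁻¹, H.inv_mem h.2, 1, H.one_mem, by simp⟩
      have h3 : ((h : G) • x)⁻¹ * ((h : G) • y) = x⁻¹ * y := by simp only [smul_eq_mul]; group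
      rw [h1, h2, h3]
  -- degrees are constant on the orbits
  have hd1 : ∀ i i' : G ⧸ H, dl H i = dl H i' →
      (Finset.univ.filter (r i)).card = (Finset.univ.filter (r i')).card := by
    intro i i' h
    obtain ⟨a, rfl⟩ := dl_trans H i i' h
    apply Finset.card_bij (fun k _ => (a : G) • k)
    · intro k hk
      simp only [Finset.mem_filter, Finset.mem_univ, true_and] at hk ⊢
      exact (hsm a i k).mpr hk
    · intro k _ k' _ hkk
      exact MulAction.injective (a : G) hkk
    · intro k hk
      simp only [Finset.mem_filter, Finset.mem_univ, true_and] at hk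
      refine ⟨(a : G)⁻¹ • k, ?_, by simp⟩
      simp only [Finset.mem_filter, Finset.mem_univ, true_and]
      rw [← hsm a]
      simpa using hk
  have hd2 : ∀ k k' : G ⧸ H, dl H k = dl H k' →
      (Finset.univ.filter (fun i => r i k)).card = (Finset.univ.filter (fun i => r i k')).card := by
    intro k k' h
    obtain ⟨a, rfl⟩ := dl_trans H k k' h
    apply Finset.card_bij (fun i _ => (a : G) • i)
    · intro i hi
      simp only [Finset.mem_filter, Finset.mem_univ, true_and] at hi ⊢
      exact (hsm a i k).mpr hi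
    · intro i _ i' _ hii
      exact MulAction.injective (a : G) hii
    · intro i hi
      simp only [Finset.mem_filter, Finset.mem_univ, true_and] at hi
      refine ⟨(a : G)⁻¹ • i, ?_, by simp⟩
      simp only [Finset.mem_filter, Finset.mem_univ, true_and]
      rw [← hsm a]
      simpa using hi
  -- every left coset has a neighbour
  have hpos : ∀ i : G ⧸ H, ∃ k, r i k := by
    intro i
    obtain ⟨x, y, hx, hy, hxy⟩ := hne (dl H i)
    have h0 : r (x : G ⧸ H) ((x * y : G) : G ⧸ H) := by
      rw [hr]
      rw [hx]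
      exact ⟨hxy, by rw [inv_mul_cancel_left]; exact hy⟩
    obtain ⟨a, rfl⟩ := dl_trans H (x : G ⧸ H) i (by rw [dl_mk]; exact hx)
    exact ⟨_, (hsm a _ _).mpr h0⟩
  obtain ⟨f, hf, hfr⟩ := hall_deg r hpos (by
    intro i k hik
    -- double counting between the two double cosets
    set A := Finset.univ.filter (fun i' : G ⧸ H => dl H i' = dl H i) with hA
    set B := Finset.univ.filter (fun k' : G ⧸ H => dl H k' = dl H k) with hB
    have hAB : A.card = B.card := by
      have h := card_fib_eq H (ψ (dl H i)) (dl H i) (hψ (dl H i))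
      rw [← hik.1] at h
      rw [hA, hB]
      rw [Nat.card_eq_fintype_card, Nat.card_eq_fintype_card, Fintype.card_subtype,
        Fintype.card_subtype] at h
      exact h.symm
    have hdc := Finset.sum_card_bipartiteAbove_eq_sum_card_bipartiteBelow (s := A) (t := B) r
    have h1 : ∀ a ∈ A, (B.bipartiteAbove r a).card = (Finset.univ.filter (r i)).card := by
      intro a ha
      rw [← hd1 a i (by simpa [hA] using ha)]
      congr 1
      ext k'
      simp only [Finset.bipartiteAbove, Finset.mem_filter, Finset.mem_univ, true_and, hB]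
      constructor
      · exact fun h => h.2
      · intro h
        refine ⟨?_, h⟩
        have ha' : dl H a = dl H i := by simpa [hA] using ha
        rw [h.1, hik.1, ha']
    have h2 : ∀ b ∈ B, (A.bipartiteBelow r b).card =
        (Finset.univ.filter (fun i' => r i' k)).card := by
      intro b hb
      rw [← hd2 b k (by simpa [hB] using hb)]
      congr 1
      ext i'
      simp only [Finset.bipartiteBelow, Finset.mem_filter, Finset.mem_univ, true_and, hA]
      constructor
      · exact fun h => h.2
      · intro h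
        refine ⟨?_, h⟩
        have hb' : dl H b = dl H k := by simpa [hB] using hb
        apply ψ.injective
        rw [← h.1, ← hik.1, hb']
    rw [Finset.sum_congr rfl h1, Finset.sum_congr rfl h2, Finset.sum_const, Finset.sum_const,
      smul_eq_mul, smul_eq_mul, hAB] at hdc
    have hBpos : 0 < B.card := Finset.card_pos.mpr ⟨k, by simp [hB]⟩
    exact (Nat.eq_of_mul_eq_mul_left hBpos hdc).ge)
  refine ⟨Equiv.ofBijective f (Finite.injective_iff_bijective.mp hf), ?_⟩
  intro x y hxy
  have h := hfr (x : G ⧸ H)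
  have h' : f (x : G ⧸ H) = (y : G ⧸ H) := hxy
  rw [h'] at h
  exact (hr x y).mp h

end H81.CM
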